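import Pool.Agent.ResIdeal.Star

/-!
# Star configurations with plane strata are Cohen-Macaulay
-/

set_option autoImplicit false

open MvPolynomial

namespace Pool.Agent.ResIdeal

universe u v

section plane

variable {K : Type u} [Field K]

lemma exists_poly_dvd {p : MvPolynomial (Fin 2) K} (hmax : (Ideal.span {p}).IsMaximal)
    (i : Fin 2) : ∃ f : Polynomial K, f ≠ 0 ∧ p ∣ Polynomial.aeval (X i) f := by
  let _ : Field (MvPolynomial (Fin 2) K ⧸ Ideal.span {p}) := Ideal.Quotient.field _
  have hfin : Module.Finite K (MvPolynomial (Fin 2) K ⧸ Ideal.span {p}) :=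
    finite_of_finite_type_of_isJacobsonRing K _
  have halg : IsAlgebraic K (Ideal.Quotient.mk (Ideal.span {p}) (X i)) :=
    Algebra.IsAlgebraic.isAlgebraic _
  obtain ⟨f, hf, hf0⟩ := halg
  refine ⟨f, hf, ?_⟩
  have h1 : Ideal.Quotient.mk (Ideal.span {p}) (Polynomial.aeval (X i) f) = 0 := by
    rw [← hf0]
    have := Polynomial.aeval_algHom_apply (Ideal.Quotient.mkₐ K (Ideal.span {p})) (X i) f
    simpa using this.symm
  rw [Ideal.Quotient.eq_zero_iff_mem, Ideal.mem_span_singleton] at h1
  exact h1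

lemma degreeOf_aeval_X {i j : Fin 2} (hij : j ≠ i) (f : Polynomial K) :
    degreeOf j (Polynomial.aeval (X i : MvPolynomial (Fin 2) K) f) = 0 := by
  rw [Polynomial.aeval_eq_sum_range]
  apply Nat.le_zero.mp
  refine (degreeOf_sum_le _ _ _).trans ?_
  apply Finset.sup_le
  intro k _
  rw [MvPolynomial.smul_eq_C_mul]
  refine (degreeOf_C_mul_le _ _ _).trans ?_
  refine (degreeOf_pow_le _ _ _).trans ?_
  rw [degreeOf_X, if_neg hij, mul_zero]

/-- no maximal ideal of the polynomial ring in two variables is principal -/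
theorem not_isMaximal_span_singleton (p : MvPolynomial (Fin 2) K) :
    ¬ (Ideal.span {p}).IsMaximal := by
  intro hmax
  have h0 : p ≠ 0 := by
    rintro rfl
    have h1 : (⊥ : Ideal (MvPolynomial (Fin 2) K)).IsMaximal := by
      rwa [Ideal.span_singleton_eq_bot.mpr rfl] at hmax
    have h2 : Ideal.span {(X 0 : MvPolynomial (Fin 2) K)} = ⊥ := by
      symm
      apply h1.eq_of_le
      · rw [Ne, Ideal.span_singleton_eq_top]
        exact (X_prime (i := (0 : Fin 2)) (R := K)).not_isUnit
      · exact bot_le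
    rw [Ideal.span_singleton_eq_bot] at h2
    exact X_ne_zero 0 h2
  have hdeg : ∀ j : Fin 2, degreeOf j p = 0 := by
    intro j
    obtain ⟨i, hij⟩ : ∃ i : Fin 2, j ≠ i := ⟨j + 1, by fin_cases j <;> decide⟩
    obtain ⟨f, hf, q, hq⟩ := exists_poly_dvd hmax i
    have hne : Polynomial.aeval (X i : MvPolynomial (Fin 2) K) f ≠ 0 := by
      intro h
      apply hf
      have hinj : Function.Injective (Polynomial.aeval (R := K) (X i : MvPolynomial (Fin 2) K)) :=
        transcendental_iff_injective.mp (MvPolynomial.transcendental_X K i)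
      exact hinj (by rw [h, map_zero])
    have hq0 : q ≠ 0 := by
      rintro rfl
      rw [mul_zero] at hq
      exact hne hq
    have h1 := degreeOf_mul_eq (n := j) h0 hq0
    rw [← hq, degreeOf_aeval_X hij] at h1
    omega
  have hC : p = C (coeff 0 p) := by
    rw [← totalDegree_eq_zero_iff_eq_C, totalDegree_eq_zero_iff]
    intro m hm x
    have := monomial_le_degreeOf x hm
    rw [hdeg x] at this
    exact Nat.le_zero.mp this
  apply hmax.ne_top
  rw [Ideal.span_singleton_eq_top, hC]
  have : coeff 0 p ≠ 0 := by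
    intro h
    rw [h, C_0] at hC
    exact h0 hC
  exact (isUnit_iff_ne_zero.mpr this).map C

/-- prime avoidance in the form we need -/
lemma exists_mem_notMem {S : Type v} [CommRing S] (s : Finset (Ideal S))
    (hs : ∀ P ∈ s, P.IsPrime) (M : Ideal S) (hM : ∀ P ∈ s, ¬ M ≤ P) :
    ∃ x ∈ M, ∀ P ∈ s, x ∉ P := by
  by_contra hcon
  push Not at hcon
  have h1 : (M : Set S) ⊆ ⋃ P ∈ (↑s : Set (Ideal S)), (id P : Ideal S) := by
    intro x hx
    obtain ⟨P, hP, hxP⟩ := hcon x hx
    exact Set.mem_biUnion (x := P) hP hxP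
  rw [Ideal.subset_union_prime (f := id) ⊤ ⊤ (fun P hP _ _ => hs P hP)] at h1
  obtain ⟨P, hP, hMP⟩ := h1
  exact hM P hP hMP

/-- common weakly regular sequences inside a maximal ideal -/
lemma exists_WR {S : Type v} [CommRing S] {ι : Type*} (s : Finset ι)
    (π : ι → (S →+* MvPolynomial (Fin 2) K)) (hπ : ∀ i ∈ s, Function.Surjective (π i))
    (M : Ideal S) (hM : M.IsMaximal) :
    ∃ x ∈ M, ∃ y ∈ M, ∀ i ∈ s, WR x y (RingHom.ker (π i)) := by
  classical
  -- the map of `M` is not contained in a proper principal ideal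
  have hcomap : ∀ i ∈ s, ∀ p : MvPolynomial (Fin 2) K, ¬ IsUnit p →
      ¬ M ≤ Ideal.comap (π i) (Ideal.span {p}) := by
    intro i hi p hp hle
    have hne : Ideal.comap (π i) (Ideal.span {p}) ≠ ⊤ := by
      intro h
      apply hp
      rw [← Ideal.span_singleton_eq_top]
      rw [Ideal.eq_top_iff_one] at h ⊢
      rw [Ideal.mem_comap, map_one] at h
      exact h
    have heq := hM.eq_of_le hne hle
    apply not_isMaximal_span_singleton p
    have h1 : Ideal.map (π i) M = Ideal.span {p} := by
      rw [heq, Ideal.map_comap_of_surjective _ (hπ i hi)]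
    rw [← h1]
    rcases Ideal.map_eq_top_or_isMaximal_of_surjective (π i) (hπ i hi) hM with h | h
    · exfalso
      rw [h1, Ideal.span_singleton_eq_top] at h
      exact hp h
    · exact h
  obtain ⟨x, hxM, hx⟩ := exists_mem_notMem (s.image (fun i => RingHom.ker (π i)))
    (by
      intro P hP
      rw [Finset.mem_image] at hP
      obtain ⟨i, _, rfl⟩ := hP
      exact RingHom.ker_isPrime _) M (by
      intro P hP
      rw [Finset.mem_image] at hP
      obtain ⟨i, hi, rfl⟩ := hP
      have := hcomap i hi 0 not_isUnit_zero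
      rwa [Ideal.span_singleton_eq_bot.mpr rfl] at this)
  have hx0 : ∀ i ∈ s, π i x ≠ 0 := by
    intro i hi h
    exact hx _ (Finset.mem_image_of_mem _ hi) h
  obtain ⟨y, hyM, hy⟩ := exists_mem_notMem
    (s.biUnion (fun i => (UniqueFactorizationMonoid.factors (π i x)).toFinset.image
      (fun p => Ideal.comap (π i) (Ideal.span {p}))))
    (by
      intro P hP
      rw [Finset.mem_biUnion] at hP
      obtain ⟨i, _, hP⟩ := hP
      rw [Finset.mem_image] at hP
      obtain ⟨p, hp, rfl⟩ := hP
      rw [Multiset.mem_toFinset] at hp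
      have hpp : Prime p := UniqueFactorizationMonoid.prime_of_factor p hp
      have : (Ideal.span {p}).IsPrime := (Ideal.span_singleton_prime hpp.ne_zero).mpr hpp
      exact Ideal.comap_isPrime _ _) M (by
      intro P hP
      rw [Finset.mem_biUnion] at hP
      obtain ⟨i, hi, hP⟩ := hP
      rw [Finset.mem_image] at hP
      obtain ⟨p, hp, rfl⟩ := hP
      rw [Multiset.mem_toFinset] at hp
      exact hcomap i hi p (UniqueFactorizationMonoid.prime_of_factor p hp).not_isUnit)
  refine ⟨x, hxM, y, hyM, ?_⟩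
  intro i hi
  have hrel : IsRelPrime (π i x) (π i y) := by
    intro d hd1 hd2
    by_contra hdu
    have hd0 : d ≠ 0 := by
      rintro rfl
      exact hx0 i hi (zero_dvd_iff.mp hd1)
    obtain ⟨p, hp, hpd⟩ := WfDvdMonoid.exists_irreducible_factor hdu hd0
    obtain ⟨p', hp', hassoc⟩ := UniqueFactorizationMonoid.exists_mem_factors_of_dvd (hx0 i hi) hp
      (hpd.trans hd1)
    apply hy (Ideal.comap (π i) (Ideal.span {p'}))
    · rw [Finset.mem_biUnion]
      exact ⟨i, hi, Finset.mem_image_of_mem _ (Multiset.mem_toFinset.mpr hp')⟩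
    · rw [Ideal.mem_comap, Ideal.mem_span_singleton]
      exact hassoc.symm.dvd.trans (hpd.trans hd2)
  constructor
  · intro f hf
    rw [RingHom.mem_ker, map_mul] at hf
    exact (mul_eq_zero.mp hf).resolve_left (hx0 i hi)
  · intro f hf
    rw [mem_sup_span] at hf ⊢
    obtain ⟨k, hk, g, hg⟩ := hf
    have h1 : π i x ∣ π i y * π i f := by
      rw [← map_mul, hg, map_add, (RingHom.mem_ker).mp hk, zero_add, map_mul]
      exact dvd_mul_right _ _
    obtain ⟨w, hw⟩ := hrel.dvd_of_dvd_mul_left h1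
    obtain ⟨w', rfl⟩ := hπ i hi w
    refine ⟨f - x * w', ?_, w', by ring⟩
    rw [RingHom.mem_ker, map_sub, map_mul, hw, sub_self]

end plane

/-- from `WR` to Mathlib's weakly regular sequences -/
lemma isWeaklyRegular_of_WR {S : Type v} [CommRing S] {I : Ideal S} {x y : S} (h : WR x y I) :
    RingTheory.Sequence.IsWeaklyRegular (S ⧸ I)
      [Ideal.Quotient.mk I x, Ideal.Quotient.mk I y] := by
  rw [RingTheory.Sequence.isWeaklyRegular_cons_iff, RingTheory.Sequence.isWeaklyRegular_cons_iff]
  refine ⟨?_, ?_, RingTheory.Sequence.IsWeaklyRegular.nil _ _⟩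
  · rw [isSMulRegular_iff_right_eq_zero_of_smul]
    intro m hm
    obtain ⟨f, rfl⟩ := Ideal.Quotient.mk_surjective m
    rw [smul_eq_mul, ← map_mul, Ideal.Quotient.eq_zero_iff_mem] at hm
    rw [Ideal.Quotient.eq_zero_iff_mem]
    exact h.1 f hm
  · rw [isSMulRegular_iff_right_eq_zero_of_smul]
    intro m hm
    obtain ⟨m', rfl⟩ := Submodule.Quotient.mk_surjective _ m
    obtain ⟨f, rfl⟩ := Ideal.Quotient.mk_surjective m'
    rw [← Submodule.Quotient.mk_smul, Submodule.Quotient.mk_eq_zero] at hm
    rw [Submodule.Quotient.mk_eq_zero]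
    rw [Submodule.mem_smul_pointwise_iff_exists] at hm ⊢
    obtain ⟨w, -, hw⟩ := hm
    obtain ⟨w', rfl⟩ := Ideal.Quotient.mk_surjective w
    rw [smul_eq_mul, smul_eq_mul, ← map_mul, ← map_mul, Ideal.Quotient.eq] at hw
    have h1 : y * f ∈ I ⊔ Ideal.span {x} := by
      rw [mem_sup_span]
      refine ⟨-(x * w' - y * f), neg_mem hw, w', by ring⟩
    have h2 := h.2 f h1
    rw [mem_sup_span] at h2
    obtain ⟨i, hi, g, rfl⟩ := h2
    refine ⟨Ideal.Quotient.mk I g, trivial, ?_⟩
    rw [smul_eq_mul, ← map_mul, Ideal.Quotient.eq]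
    have : x * g - (i + x * g) = -i := by ring
    rw [this]
    exact neg_mem hi

end Pool.Agent.ResIdeal
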