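import Pool.Agent.ResIdeal.CM

/-!
# Star configurations with plane strata are Cohen-Macaulay, II
-/

set_option autoImplicit false

open MvPolynomial

namespace Pool.Agent.ResIdeal

universe u v

variable {K : Type u} [Field K]

lemma dim_plane : ringKrullDim (MvPolynomial (Fin 2) K) = 2 := by
  rw [MvPolynomial.ringKrullDim_of_isNoetherianRing, ringKrullDim_eq_zero_of_field]
  simp

lemma dim_quotient_le {S : Type v} [CommRing S] {ι : Type*} (s : Finset ι)
    (π : ι → (S →+* MvPolynomial (Fin 2) K)) (hπ : ∀ i ∈ s, Function.Surjective (π i))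
    (I : Ideal S) (hI : ∀ P : Ideal S, P.IsPrime → I ≤ P → ∃ i ∈ s, RingHom.ker (π i) ≤ P) :
    ringKrullDim (S ⧸ I) ≤ 2 := by
  rw [ringKrullDim_quotient]
  apply iSup_le
  intro p
  obtain ⟨i, hi, hle⟩ := hI p.head.1.asIdeal p.head.1.isPrime p.head.2
  let p' : LTSeries (PrimeSpectrum.zeroLocus (R := S) (RingHom.ker (π i))) :=
    LTSeries.mk p.length (fun k => ⟨(p k).1, by
      have h1 : p.head ≤ p k := p.head_le k
      exact le_trans hle h1⟩) (by
      intro k l hkl
      exact p.strictMono hkl)
  have h1 : (p.length : WithBot ℕ∞) = (p'.length : WithBot ℕ∞) := rfl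
  rw [h1]
  have h2 : (p'.length : WithBot ℕ∞) ≤ Order.krullDim
      (PrimeSpectrum.zeroLocus (R := S) (RingHom.ker (π i))) :=
    le_iSup (fun q : LTSeries (PrimeSpectrum.zeroLocus (R := S) (RingHom.ker (π i))) =>
      (q.length : WithBot ℕ∞)) p'
  refine h2.trans ?_
  rw [← ringKrullDim_quotient]
  have e := RingHom.quotientKerEquivOfSurjective (hπ i hi)
  rw [ringKrullDim_eq_of_ringEquiv e, dim_plane]

/-- The quotient by a star ideal whose strata have coordinate ring `K[u, v]` is
Cohen-Macaulay. -/
theorem isCM_star {S : Type v} [CommRing S] [IsDomain S] [IsNoetherianRing S] {ι : Type*}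
    [DecidableEq ι] {a : ι → S} (h : StarData a) (T : Finset ι) (hT : T.Nonempty)
    (π : ι → ι → (S →+* MvPolynomial (Fin 2) K))
    (hπ : ∀ i j, i ≠ j → Function.Surjective (π i j))
    (hker : ∀ i j, i ≠ j → RingHom.ker (π i j) = Ideal.span {a i, a j}) (huniv : ∀ i, i ∈ T) :
    IsCohenMacaulayRing (S ⧸ starIdeal a T) := by
  classical
  refine ⟨inferInstance, ?_⟩
  generalize hI : starIdeal a T = I
  intro m hm
  -- pull back the maximal ideal
  let M : Ideal S := Ideal.comap (Ideal.Quotient.mk I) m
  have hM : M.IsMaximal := Ideal.comap_isMaximal_of_surjective _ Ideal.Quotient.mk_surjective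
  obtain ⟨x, hx, y, hy, hxy⟩ := exists_WR (T.offDiag) (fun p => π p.1 p.2)
    (by
      rintro ⟨i, j⟩ hij
      rw [Finset.mem_offDiag] at hij
      exact hπ i j hij.2.2) M hM
  have hWR : WR x y I := by
    rw [← hI]
    apply h.WR_star _ T hT
    intro i j hij
    rw [← hker i j hij]
    exact hxy (i, j) (Finset.mem_offDiag.mpr ⟨huniv i, huniv j, hij⟩)
  have hwreg := isWeaklyRegular_of_WR hWR
  have hreg := hwreg.isRegular_of_isLocalization_of_mem (S := Localization.AtPrime m) m (by
    intro r hr
    simp only [List.mem_cons, List.not_mem_nil, or_false] at hr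
    rcases hr with rfl | rfl
    · exact hx
    · exact hy)
  refine ⟨_, hreg, ?_⟩
  have hdim1 : ringKrullDim (S ⧸ I) ≤ 2 := by
    apply dim_quotient_le (T.offDiag) (fun p => π p.1 p.2)
      (by
        rintro ⟨i, j⟩ hij
        rw [Finset.mem_offDiag] at hij
        exact hπ i j hij.2.2) I
    intro P hP hle
    have hinf : T.offDiag.inf (fun p => Ideal.span {a p.1, a p.2}) ≤ P := by
      refine le_trans ?_ hle
      rw [← hI]
      intro f hf i hi j hj hij
      rw [Submodule.mem_finsetInf] at hf
      exact hf (i, j) (Finset.mem_offDiag.mpr ⟨hi, hj, hij⟩)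
    rw [hP.inf_le'] at hinf
    obtain ⟨p, hp, hpP⟩ := hinf
    refine ⟨p, hp, ?_⟩
    rw [Finset.mem_offDiag] at hp
    rw [hker _ _ hp.2.2]
    exact hpP
  have hdim2 : ringKrullDim (Localization.AtPrime m) ≤ 2 := by
    rw [IsLocalization.AtPrime.ringKrullDim_eq_height m (Localization.AtPrime m)]
    exact (Ideal.height_le_ringKrullDim_of_isPrime).trans hdim1
  have hlen := ringKrullDim_add_length_eq_ringKrullDim_of_isRegular _ hreg
  have hnt : Nontrivial (Localization.AtPrime m ⧸ Ideal.ofList
      (List.map (algebraMap (S ⧸ I) (Localization.AtPrime m))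
        [Ideal.Quotient.mk I x, Ideal.Quotient.mk I y])) := by
    apply Ideal.Quotient.nontrivial_iff.mpr
    intro htop
    apply hreg.top_ne_smul
    rw [htop]
    simp
  have hnonneg : 0 ≤ ringKrullDim (Localization.AtPrime m ⧸ Ideal.ofList
      (List.map (algebraMap (S ⧸ I) (Localization.AtPrime m))
        [Ideal.Quotient.mk I x, Ideal.Quotient.mk I y])) := ringKrullDim_nonneg_of_nontrivial
  apply le_antisymm
  · rw [← hlen]
    exact le_add_of_nonneg_left hnonneg
  · refine hdim2.trans ?_
    simp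

end Pool.Agent.ResIdeal
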