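import Mathlib

/-!
# Definitions: arrangements, logarithmic derivations and 1-forms, the residue ideal

Everything is in coordinates: `V = K^ℓ`, `S = K[x_1, …, x_ℓ]`.
-/

set_option autoImplicit false

open MvPolynomial

namespace Pool.Agent.ResIdeal

noncomputable section

universe u

/-- The linear form `∑ c_j x_j` with coefficient vector `c`. -/
def linForm {K : Type u} [Field K] {n : ℕ} (c : Fin n → K) : MvPolynomial (Fin n) K :=
  ∑ j, C (c j) * X j

/-- An arrangement of linear hyperplanes in `K^ℓ`: finitely many pairwise distinct hyperplanes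
`α_i = 0`, each given by the coefficient vector `α i` of a defining linear form. -/
structure Arrangement (K : Type u) [Field K] (ℓ : ℕ) where
  /-- the number of hyperplanes -/
  card : ℕ
  /-- the coefficient vector of the defining linear form of the `i`-th hyperplane -/
  α : Fin card → Fin ℓ → K
  /-- the forms are non-zero, so they define hyperplanes -/
  ne_zero : ∀ i, α i ≠ 0
  /-- the hyperplanes are pairwise distinct -/
  distinct : ∀ i j, (∀ x : Fin ℓ → K, α i ⬝ᵥ x = 0 ↔ α j ⬝ᵥ x = 0) → i = j

namespace Arrangement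

variable {K : Type u} [Field K] {ℓ : ℕ} (A : Arrangement K ℓ)

/-- The `i`-th hyperplane, a linear subspace of `K^ℓ`. -/
def hyperplane (i : Fin A.card) : Submodule K (Fin ℓ → K) where
  carrier := {x | A.α i ⬝ᵥ x = 0}
  add_mem' {x y} hx hy := by
    simp only [Set.mem_ofPred_eq] at hx hy ⊢
    rw [dotProduct_add, hx, hy, add_zero]
  zero_mem' := by simp
  smul_mem' c x hx := by
    simp only [Set.mem_ofPred_eq] at hx ⊢
    rw [dotProduct_smul, hx, smul_zero]

/-- `D(A)`: the vector fields `θ = ∑ θ_j ∂/∂x_j` with `θ(α_H) ∈ α_H S` for all hyperplanes. -/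
def logDer : Submodule (MvPolynomial (Fin ℓ) K) (Fin ℓ → MvPolynomial (Fin ℓ) K) where
  carrier := {θ | ∀ i, linForm (A.α i) ∣ ∑ j, C (A.α i j) * θ j}
  add_mem' {x y} hx hy i := by
    have h := dvd_add (hx i) (hy i)
    rw [← Finset.sum_add_distrib] at h
    simpa [mul_add] using h
  zero_mem' i := by simp
  smul_mem' c x hx i := by
    have h := (hx i).mul_left c
    rw [Finset.mul_sum] at h
    have e : ∀ j, c * (C (A.α i j) * x j) = C (A.α i j) * (c • x) j := by
      intro j
      simp only [Pi.smul_apply, smul_eq_mul]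
      ring
    simpa [e] using h

/-- `A` is a free arrangement: `D(A)` is a free `S`-module. -/
def IsFree : Prop := Module.Free (MvPolynomial (Fin ℓ) K) A.logDer

/-- `Ω¹(A)`, described by numerators: `g` represents `ω = (1/Q) ∑ g_j dx_j`, and the condition is
`Q ω ∧ dα_H ∈ α_H Ω²` for all hyperplanes. -/
def logForm : Submodule (MvPolynomial (Fin ℓ) K) (Fin ℓ → MvPolynomial (Fin ℓ) K) where
  carrier := {g | ∀ i j k, linForm (A.α i) ∣ g j * C (A.α i k) - g k * C (A.α i j)}
  add_mem' {x y} hx hy i j k := by
    have h := dvd_add (hx i j k) (hy i j k)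
    have e : x j * C (A.α i k) - x k * C (A.α i j) + (y j * C (A.α i k) - y k * C (A.α i j))
      = (x + y) j * C (A.α i k) - (x + y) k * C (A.α i j) := by
      simp only [Pi.add_apply]
      ring
    rwa [e] at h
  zero_mem' i j k := by simp
  smul_mem' c x hx i j k := by
    have h := (hx i j k).mul_left c
    have e : c * (x j * C (A.α i k) - x k * C (A.α i j))
      = (c • x) j * C (A.α i k) - (c • x) k * C (A.α i j) := by
      simp only [Pi.smul_apply, smul_eq_mul]
      ring
    rwa [e] at h

end Arrangement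

/-- Pull-back of polynomial functions along a linear map `K^d → K^ℓ`. -/
def pullback {K : Type u} [Field K] {d ℓ : ℕ} (φ : (Fin d → K) →ₗ[K] (Fin ℓ → K)) :
    MvPolynomial (Fin ℓ) K →ₐ[K] MvPolynomial (Fin d) K :=
  aeval (fun j => linForm (fun k => φ (Pi.single k 1) j))

namespace Arrangement

variable {K : Type u} [Field K] {ℓ : ℕ} (A : Arrangement K ℓ)

/-- The members of `A` other than `H = H_i` that come first among all members with the same
intersection with `H`: exactly one member for each element of the restriction `A^H`. -/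
def firstReps (i : Fin A.card) : Finset (Fin A.card) :=
  Finset.univ.filter (fun j => j ≠ i ∧ ∀ k < j, k ≠ i →
    A.hyperplane k ⊓ A.hyperplane i ≠ A.hyperplane j ⊓ A.hyperplane i)

/-- `Q(A)/α_H` restricted to `H` (identified with `K^d` through `φ`). -/
def restQ (i : Fin A.card) {d : ℕ} (φ : (Fin d → K) ≃ₗ[K] A.hyperplane i) :
    MvPolynomial (Fin d) K :=
  ∏ j ∈ Finset.univ.filter (fun j => j ≠ i),
    pullback ((A.hyperplane i).subtype ∘ₗ φ.toLinearMap) (linForm (A.α j))

/-- The polynomial `B = ∏_{X ∈ A^H} α_X ^ (m(X) - 1)` on `H`, where `m(X)` is the number of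
members of `A` other than `H` that meet `H` in `X`. -/
def polyB (i : Fin A.card) {d : ℕ} (φ : (Fin d → K) ≃ₗ[K] A.hyperplane i) :
    MvPolynomial (Fin d) K :=
  ∏ j ∈ Finset.univ.filter (fun j => j ≠ i ∧ j ∉ A.firstReps i),
    pullback ((A.hyperplane i).subtype ∘ₗ φ.toLinearMap) (linForm (A.α j))

/-- The residue ideal of `A` along `H = H_i`, an ideal of the coordinate ring `K[w_1, …, w_d]` of
`H ≅ K^d`. If `g` represents `ω ∈ Ω¹(A)` then `Q ω` restricts on `H` to `γ dα_H`, the residue of
`ω` is `γ / (Q/α_H)|_H`, and `f` is `B` times this residue. -/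
def residueIdeal (i : Fin A.card) {d : ℕ} (φ : (Fin d → K) ≃ₗ[K] A.hyperplane i) :
    Ideal (MvPolynomial (Fin d) K) :=
  Ideal.span {f | ∃ g ∈ A.logForm, ∃ γ : MvPolynomial (Fin d) K,
    (∀ k, pullback ((A.hyperplane i).subtype ∘ₗ φ.toLinearMap) (g k) = C (A.α i k) * γ) ∧
    f * A.restQ i φ = A.polyB i φ * γ}

end Arrangement

/-- The ideal of a linear subspace `X` of `K^n`, generated by the linear forms vanishing on `X`. -/
def subspaceIdeal {K : Type u} [Field K] {n : ℕ} (X : Submodule K (Fin n → K)) :
    Ideal (MvPolynomial (Fin n) K) :=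
  Ideal.span {f | ∃ c : Fin n → K, (∀ x ∈ X, c ⬝ᵥ x = 0) ∧ f = linForm c}

/-- The defining ideal of a subspace arrangement. -/
def definingIdeal {K : Type u} [Field K] {n : ℕ} (B : Finset (Submodule K (Fin n → K))) :
    Ideal (MvPolynomial (Fin n) K) :=
  ⨅ X ∈ B, subspaceIdeal X

/-- Cohen-Macaulay rings: Noetherian, and every localisation at a maximal ideal has a regular
sequence whose length is its Krull dimension. -/
def IsCohenMacaulayRing (R : Type u) [CommRing R] : Prop :=
  IsNoetherianRing R ∧ ∀ (m : Ideal R) [m.IsMaximal], ∃ rs : List (Localization.AtPrime m),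
    RingTheory.Sequence.IsRegular (Localization.AtPrime m) rs ∧
      (rs.length : WithBot ℕ∞) = ringKrullDim (Localization.AtPrime m)

end

end Pool.Agent.ResIdeal
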