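import Pool.Agent.ResIdeal.Pull

/-!
# For a free arrangement `Ω¹(A)` is generated by at most `ℓ` elements
-/

set_option autoImplicit false

open MvPolynomial

namespace Pool.Agent.ResIdeal

universe u

variable {K : Type u} [Field K]

lemma eval_linForm {n : ℕ} (c x : Fin n → K) : MvPolynomial.eval x (linForm c) = c ⬝ᵥ x := by
  simp [linForm, dotProduct]

lemma coeff_linForm {n : ℕ} (c : Fin n → K) (i : Fin n) :
    (linForm c).coeff (Finsupp.single i 1) = c i := by
  simp only [linForm, coeff_sum, coeff_C_mul]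
  rw [Finset.sum_eq_single i]
  · simp
  · intro b _ hb
    rw [coeff_X, if_neg]
    · simp
    · rwa [Finsupp.single_left_inj Nat.one_ne_zero]
  · intro h
    exact absurd (Finset.mem_univ i) h

lemma isHomogeneous_linForm {n : ℕ} (c : Fin n → K) : (linForm c).IsHomogeneous 1 := by
  unfold linForm
  apply IsHomogeneous.sum
  intro i _
  exact isHomogeneous_C_mul_X _ _

lemma totalDegree_linForm {n : ℕ} {c : Fin n → K} (hc : c ≠ 0) : (linForm c).totalDegree = 1 :=
  (isHomogeneous_linForm c).totalDegree (linForm_ne_zero hc)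

lemma prime_linForm {n : ℕ} {c : Fin n → K} (hc : c ≠ 0) : Prime (linForm c) := by
  apply Irreducible.prime
  apply irreducible_of_totalDegree_eq_one (totalDegree_linForm hc)
  intro x hx
  obtain ⟨i, hi⟩ := Function.ne_iff.mp hc
  have h1 := hx (Finsupp.single i 1)
  rw [coeff_linForm] at h1
  rw [isUnit_iff_ne_zero]
  rintro rfl
  exact hi (zero_dvd_iff.mp h1)

lemma exists_smul_of_linForm_dvd {n : ℕ} {c d : Fin n → K} (h : linForm c ∣ linForm d) :
    ∃ t : K, d = t • c := by
  have h1 : d ∈ Submodule.span K (Set.range (fun _ : Fin 1 => c)) := by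
    apply mem_span_of_vanish
    intro x hx
    obtain ⟨q, hq⟩ := h
    rw [← eval_linForm, hq, map_mul, eval_linForm, hx 0, zero_mul]
  rw [Set.range_const, Submodule.mem_span_singleton] at h1
  obtain ⟨t, ht⟩ := h1
  exact ⟨t, ht.symm⟩

namespace Arrangement

variable {ℓ : ℕ} (A : Arrangement K ℓ)

lemma not_smul {i j : Fin A.card} (hij : i ≠ j) (t : K) : A.α j ≠ t • A.α i := by
  intro h
  apply hij
  apply A.distinct
  intro x
  rw [h, smul_dotProduct, smul_eq_mul]
  have ht : t ≠ 0 := by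
    rintro rfl
    rw [zero_smul] at h
    exact A.ne_zero j h
  constructor
  · intro hx
    rw [hx, mul_zero]
  · intro hx
    exact (mul_eq_zero.mp hx).resolve_left ht

lemma not_dvd {i j : Fin A.card} (hij : i ≠ j) : ¬ linForm (A.α i) ∣ linForm (A.α j) := by
  intro h
  obtain ⟨t, ht⟩ := exists_smul_of_linForm_dvd h
  exact A.not_smul hij t ht

lemma prime_α (i : Fin A.card) : Prime (linForm (A.α i)) := prime_linForm (A.ne_zero i)

/-- the defining polynomial -/
noncomputable def Q : MvPolynomial (Fin ℓ) K := ∏ i, linForm (A.α i)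

lemma prod_dvd_of_forall {s : Finset (Fin A.card)} {z : MvPolynomial (Fin ℓ) K}
    (h : ∀ i ∈ s, linForm (A.α i) ∣ z) : ∏ i ∈ s, linForm (A.α i) ∣ z := by
  apply Finset.prod_dvd_of_isRelPrime _ h
  intro i _ j _ hij
  exact (A.prime_α i).irreducible.isRelPrime_iff_not_dvd.mpr (A.not_dvd hij)

lemma pairing_dvd {θ g : Fin ℓ → MvPolynomial (Fin ℓ) K} (hθ : θ ∈ A.logDer)
    (hg : g ∈ A.logForm) : A.Q ∣ ∑ j, θ j * g j := by
  apply A.prod_dvd_of_forall
  intro i _
  obtain ⟨k, hk⟩ := Function.ne_iff.mp (A.ne_zero i)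
  have hu : IsUnit (C (A.α i k) : MvPolynomial (Fin ℓ) K) := by
    rw [isUnit_iff_exists]
    refine ⟨C (A.α i k)⁻¹, ?_, ?_⟩ <;> rw [← C_mul]
    · rw [mul_inv_cancel₀ hk, C_1]
    · rw [inv_mul_cancel₀ hk, C_1]
  rw [← hu.dvd_mul_left]
  have e : C (A.α i k) * ∑ j, θ j * g j
      = ∑ j, θ j * (g j * C (A.α i k) - g k * C (A.α i j)) + g k * ∑ j, C (A.α i j) * θ j := by
    rw [Finset.mul_sum, Finset.mul_sum, ← Finset.sum_add_distrib]
    refine Finset.sum_congr rfl fun j _ => ?_
    ring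
  rw [e]
  apply dvd_add
  · apply Finset.dvd_sum
    intro j _
    exact (hg i j k).mul_left _
  · exact (hθ i).mul_left _

lemma Q_smul_mem (j : Fin ℓ) : (A.Q • Pi.single j (1 : MvPolynomial (Fin ℓ) K)) ∈ A.logDer := by
  intro i
  have h1 : linForm (A.α i) ∣ A.Q := Finset.dvd_prod_of_mem _ (Finset.mem_univ i)
  apply Finset.dvd_sum
  intro k _
  simp only [Pi.smul_apply, smul_eq_mul]
  exact (h1.mul_right _).mul_left _

/-- `(Q/α_i) (α_ik ∂_j - α_ij ∂_k)` -/
noncomputable def rot (i : Fin A.card) (j k : Fin ℓ) : Fin ℓ → MvPolynomial (Fin ℓ) K :=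
  fun l => (∏ m ∈ Finset.univ.erase i, linForm (A.α m)) *
    ((if l = j then C (A.α i k) else 0) - if l = k then C (A.α i j) else 0)

lemma rot_mem (i : Fin A.card) (j k : Fin ℓ) : A.rot i j k ∈ A.logDer := by
  intro m
  by_cases hm : m = i
  · subst hm
    have : ∑ l, C (A.α m l) * A.rot m j k l = 0 := by
      have : ∀ l, C (A.α m l) * A.rot m j k l
        = (∏ m' ∈ Finset.univ.erase m, linForm (A.α m')) *
          ((if l = j then C (A.α m l) * C (A.α m k) else 0) -
            if l = k then C (A.α m l) * C (A.α m j) else (0 : MvPolynomial (Fin ℓ) K)) := by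
        intro l
        unfold rot
        split_ifs <;> ring
      simp only [this]
      rw [← Finset.mul_sum, Finset.sum_sub_distrib]
      simp [mul_comm]
    rw [this]
    exact dvd_zero _
  · have h1 : linForm (A.α m) ∣ ∏ m ∈ Finset.univ.erase i, linForm (A.α m) :=
      Finset.dvd_prod_of_mem _ (by simp [hm])
    apply Finset.dvd_sum
    intro l _
    exact (h1.mul_right _).mul_left _

lemma Q_eq (i : Fin A.card) :
    A.Q = linForm (A.α i) * ∏ m ∈ Finset.univ.erase i, linForm (A.α m) :=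
  (Finset.mul_prod_erase Finset.univ (fun m => linForm (A.α m)) (Finset.mem_univ i)).symm

/-- generators of `Ω¹` -/
lemma exists_generators (hA : A.IsFree) :
    ∃ m : ℕ, m ≤ ℓ ∧ ∃ G : Fin m → (Fin ℓ → MvPolynomial (Fin ℓ) K),
      (∀ κ, G κ ∈ A.logForm) ∧
      ∀ g ∈ A.logForm, ∃ c : Fin m → MvPolynomial (Fin ℓ) K, g = ∑ κ, c κ • G κ := by
  have : Module.Free (MvPolynomial (Fin ℓ) K) A.logDer := hA
  let b := Module.finBasis (MvPolynomial (Fin ℓ) K) A.logDer
  set m := Module.finrank (MvPolynomial (Fin ℓ) K) A.logDer with hm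
  refine ⟨m, ?_, ?_⟩
  · have h := Submodule.finrank_le A.logDer
    rwa [Module.finrank_fintype_fun_eq_card, Fintype.card_fin] at h
  -- coordinates of `Q ∂_j`
  let e : Fin ℓ → A.logDer := fun j => ⟨A.Q • Pi.single j 1, A.Q_smul_mem j⟩
  refine ⟨fun κ j => b.repr (e j) κ, ?_, ?_⟩
  · intro κ i j k
    let r : A.logDer := ⟨A.rot i j k, A.rot_mem i j k⟩
    have h1 : (C (A.α i k) : MvPolynomial (Fin ℓ) K) • e j
        - (C (A.α i j) : MvPolynomial (Fin ℓ) K) • e k = linForm (A.α i) • r := by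
      apply Subtype.ext
      simp only [e, r, Submodule.coe_sub, Submodule.coe_smul]
      rw [A.Q_eq i]
      funext l
      simp only [Pi.smul_apply, Pi.sub_apply, smul_eq_mul, rot, Pi.single_apply]
      split_ifs <;> ring
    have h2 := congrArg (fun x => b.repr x κ) h1
    simp only [map_sub, map_smul, Finsupp.coe_sub, Finsupp.coe_smul, Pi.sub_apply, Pi.smul_apply,
      smul_eq_mul] at h2
    refine ⟨b.repr r κ, ?_⟩
    rw [← h2]
    ring
  · intro g hg
    have hc : ∀ κ, ∃ c, ∑ j, (b κ : Fin ℓ → MvPolynomial (Fin ℓ) K) j * g j = A.Q * c :=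
      fun κ => A.pairing_dvd (b κ).2 hg
    choose c hc using hc
    refine ⟨c, ?_⟩
    have hQ : A.Q ≠ 0 := by
      rw [Q, Finset.prod_ne_zero_iff]
      intro i _
      exact (A.prime_α i).ne_zero
    ext j : 1
    apply mul_left_cancel₀ hQ
    have h1 : (e j : Fin ℓ → MvPolynomial (Fin ℓ) K) = ∑ κ, b.repr (e j) κ • (b κ).1 := by
      have := congrArg (fun x : A.logDer => x.1) (b.sum_repr (e j))
      rw [← this]
      simp only [Submodule.coe_sum, Submodule.coe_smul]
    have h2 : A.Q * g j = ∑ i, (e j : Fin ℓ → MvPolynomial (Fin ℓ) K) i * g i := by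
      simp [e, Pi.single_apply]
    rw [h2, h1]
    simp only [Finset.sum_apply, Pi.smul_apply, smul_eq_mul, Finset.sum_mul, Finset.mul_sum]
    rw [Finset.sum_comm]
    refine Finset.sum_congr rfl fun κ _ => ?_
    have h3 := hc κ
    calc ∑ i, b.repr (e j) κ * (b κ : Fin ℓ → MvPolynomial (Fin ℓ) K) i * g i
        = b.repr (e j) κ * ∑ i, (b κ : Fin ℓ → MvPolynomial (Fin ℓ) K) i * g i := by
          rw [Finset.mul_sum]
          exact Finset.sum_congr rfl fun i _ => by ring
      _ = A.Q * (c κ * b.repr (e j) κ) := by rw [h3]; ring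

end Arrangement

end Pool.Agent.ResIdeal
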