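import Pool.Agent.ResIdeal.Six

/-!
# The ideal of the star configuration of six hyperplanes needs six generators
-/

set_option autoImplicit false

open MvPolynomial

namespace Pool.Agent.ResIdeal

universe u

variable {K : Type u} [Field K]

/-- products of five of the six forms -/
noncomputable def qf (K : Type u) [Field K] (i : Fin 6) : MvPolynomial (Fin 4) K :=
  ∏ j ∈ Finset.univ.erase i, sf K j

lemma qf_homogeneous (i : Fin 6) : (qf K i).IsHomogeneous 5 := by
  have h := IsHomogeneous.prod (Finset.univ.erase i) (fun j => sf K j) (fun _ => 1)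
    (fun j _ => isHomogeneous_linForm _)
  have hcard : ∑ _j ∈ (Finset.univ.erase i : Finset (Fin 6)), 1 = 5 := by
    rw [Finset.sum_const, Finset.card_erase_of_mem (Finset.mem_univ i), Finset.card_univ,
      Fintype.card_fin]
    rfl
  rw [hcard] at h
  exact h

lemma qf_mem (i : Fin 6) : qf K i ∈ definingIdeal (starArr K) := by
  rw [definingIdeal_starArr, mem_starIdeal]
  intro j _ k _ hjk
  by_cases hj : j = i
  · subst hj
    have hk : k ∈ (Finset.univ.erase j : Finset (Fin 6)) :=
      Finset.mem_erase.mpr ⟨Ne.symm hjk, Finset.mem_univ _⟩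
    obtain ⟨q, hq⟩ := Finset.dvd_prod_of_mem (sf K) hk
    rw [qf, hq]
    exact Ideal.mul_mem_right _ _ (Ideal.subset_span (by simp))
  · have hk : j ∈ (Finset.univ.erase i : Finset (Fin 6)) :=
      Finset.mem_erase.mpr ⟨hj, Finset.mem_univ _⟩
    obtain ⟨q, hq⟩ := Finset.dvd_prod_of_mem (sf K) hk
    rw [qf, hq]
    exact Ideal.mul_mem_right _ _ (Ideal.subset_span (by simp))

/-- the degree-5 component of a multiple of a form of degree 5 -/
lemma comp_mul {n : ℕ} (c q : MvPolynomial (Fin 4) K) (hq : q.IsHomogeneous n) :
    homogeneousComponent n (c * q) = C (coeff 0 c) * q := by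
  conv_lhs => rw [← sum_homogeneousComponent c]
  rw [Finset.sum_mul, map_sum, Finset.sum_eq_single 0]
  · rw [homogeneousComponent_zero, homogeneousComponent_C_mul,
      homogeneousComponent_eq_self hq]
  · intro b _ hb
    have h1 : (homogeneousComponent b c * q).IsHomogeneous (b + n) :=
      (homogeneousComponent_isHomogeneous b c).mul hq
    rw [homogeneousComponent_of_mem h1, if_neg]
    omega
  · intro h
    exact absurd (Finset.mem_range.mpr (Nat.succ_pos _)) h

/-- every element of the ideal is a combination of the `qf` -/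
lemma exists_comb_qf {f : MvPolynomial (Fin 4) K} (hf : f ∈ definingIdeal (starArr K)) :
    ∃ c : Fin 6 → MvPolynomial (Fin 4) K, f = ∑ i, c i * qf K i := by
  rw [definingIdeal_starArr, mem_starIdeal] at hf
  exact starData_sf.exists_comb Finset.univ Finset.univ_nonempty f hf

lemma comp_mul_mem (c : MvPolynomial (Fin 4) K) {f : MvPolynomial (Fin 4) K}
    (hf : f ∈ definingIdeal (starArr K)) :
    homogeneousComponent 5 (c * f) = coeff 0 c • homogeneousComponent 5 f := by
  obtain ⟨d, rfl⟩ := exists_comb_qf hf
  rw [Finset.mul_sum, map_sum, map_sum, Finset.smul_sum]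
  refine Finset.sum_congr rfl fun i _ => ?_
  rw [← mul_assoc, comp_mul _ _ (qf_homogeneous i), comp_mul _ _ (qf_homogeneous i),
    smul_eq_C_mul]
  have h0 : coeff 0 (c * d i) = coeff 0 c * coeff 0 (d i) := by
    have := map_mul (constantCoeff (R := K) (σ := Fin 4)) c (d i)
    simpa [constantCoeff_eq] using this
  rw [h0, C_mul, mul_assoc]

lemma linearIndependent_qf : LinearIndependent K (qf K) := by
  rw [Fintype.linearIndependent_iff]
  intro g hg i
  by_contra hgi
  -- reduce modulo `ℓ_i`
  have h1 : sf K i ∣ g i • qf K i := by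
    have h2 : g i • qf K i = - ∑ j ∈ Finset.univ.erase i, g j • qf K j := by
      rw [← Finset.add_sum_erase _ _ (Finset.mem_univ i)] at hg
      linear_combination hg
    rw [h2, dvd_neg]
    apply Finset.dvd_sum
    intro j hj
    rw [smul_eq_C_mul]
    apply Dvd.dvd.mul_left
    apply Finset.dvd_prod_of_mem
    rw [Finset.mem_erase] at hj ⊢
    exact ⟨Ne.symm hj.1, Finset.mem_univ _⟩
  rw [smul_eq_C_mul] at h1
  have hu : IsUnit (C (g i) : MvPolynomial (Fin 4) K) := (isUnit_iff_ne_zero.mpr hgi).map C
  rw [hu.dvd_mul_left, qf, (starData_sf.prime i).dvd_finsetProd_iff] at h1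
  obtain ⟨j, hj, hdvd⟩ := h1
  rw [Finset.mem_erase] at hj
  exact starData_sf.not_dvd i j (Ne.symm hj.1) hdvd

/-- The ideal is not generated by fewer than six elements. -/
theorem six_le_of_gens {m : ℕ} (F : Fin m → MvPolynomial (Fin 4) K)
    (hF : definingIdeal (starArr K) = Ideal.span (Set.range F)) : 6 ≤ m := by
  have hFmem : ∀ κ, F κ ∈ definingIdeal (starArr K) := by
    intro κ
    rw [hF]
    exact Ideal.subset_span ⟨κ, rfl⟩
  -- all `qf` lie in the span of the degree 5 components of the generators
  have hspan : ∀ i, qf K i ∈ Submodule.span K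
      (Set.range fun κ => homogeneousComponent 5 (F κ)) := by
    intro i
    have h1 := qf_mem (K := K) i
    rw [hF, Ideal.span, Submodule.mem_span_range_iff_exists_fun] at h1
    obtain ⟨c, hc⟩ := h1
    rw [← homogeneousComponent_eq_self (qf_homogeneous (K := K) i), ← hc, map_sum]
    apply Submodule.sum_mem
    intro κ _
    rw [smul_eq_mul, comp_mul_mem _ (hFmem κ)]
    exact Submodule.smul_mem _ _ (Submodule.subset_span ⟨κ, rfl⟩)
  have hle : Submodule.span K (Set.range (qf K)) ≤ Submodule.span K
      (Set.range fun κ => homogeneousComponent 5 (F κ)) := by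
    rw [Submodule.span_le]
    rintro _ ⟨i, rfl⟩
    exact hspan i
  have h2 : Module.finrank K (Submodule.span K (Set.range (qf K))) = 6 := by
    rw [finrank_span_eq_card linearIndependent_qf, Fintype.card_fin]
  have h3 : Module.finrank K (Submodule.span K
      (Set.range fun κ => homogeneousComponent 5 (F κ))) ≤ m := by
    have := finrank_range_le_card (R := K) (fun κ => homogeneousComponent 5 (F κ))
    rwa [Fintype.card_fin] at this
  have : Module.Finite K (Submodule.span K
      (Set.range fun κ => homogeneousComponent 5 (F κ))) :=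
    Module.Finite.span_of_finite K (Set.finite_range _)
  have h4 := Submodule.finrank_mono hle
  omega

end Pool.Agent.ResIdeal
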