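import Pool.Agent.ResIdeal.Defs

/-!
# Pull-back along injective linear maps: surjective with kernel the subspace ideal
-/

set_option autoImplicit false

open MvPolynomial

namespace Pool.Agent.ResIdeal

universe u

variable {K : Type u} [Field K]

lemma linForm_add {n : ℕ} (c d : Fin n → K) : linForm (c + d) = linForm c + linForm d := by
  simp [linForm, add_mul, Finset.sum_add_distrib]

lemma linForm_sub {n : ℕ} (c d : Fin n → K) : linForm (c - d) = linForm c - linForm d := by
  simp [linForm, sub_mul, Finset.sum_sub_distrib]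

lemma linForm_smul {n : ℕ} (t : K) (c : Fin n → K) : linForm (t • c) = C t * linForm c := by
  simp [linForm, Finset.mul_sum, mul_assoc]

lemma linForm_single {n : ℕ} (j : Fin n) : linForm (Pi.single j (1 : K)) = X j := by
  simp only [linForm]
  rw [Finset.sum_eq_single j]
  · simp
  · intro b _ hb
    simp [Pi.single_eq_of_ne hb]
  · intro h
    exact absurd (Finset.mem_univ j) h

lemma linForm_injective {n : ℕ} : Function.Injective (linForm : (Fin n → K) → _) := by
  intro c d h
  ext j
  have h1 := congrArg (MvPolynomial.eval (Pi.single j (1 : K))) h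
  have h2 : ∀ e : Fin n → K, MvPolynomial.eval (Pi.single j (1 : K)) (linForm e) = e j := by
    intro e
    simp only [linForm, map_sum, map_mul, eval_C, eval_X]
    rw [Finset.sum_eq_single j]
    · simp
    · intro b _ hb
      simp [Pi.single_eq_of_ne hb]
    · intro h
      exact absurd (Finset.mem_univ j) h
  rwa [h2, h2] at h1

lemma linForm_ne_zero {n : ℕ} {c : Fin n → K} (hc : c ≠ 0) : linForm c ≠ 0 := by
  intro h
  apply hc
  apply linForm_injective
  rw [h]
  simp [linForm]

lemma pullback_linForm {d ℓ : ℕ} (φ : (Fin d → K) →ₗ[K] (Fin ℓ → K)) (c : Fin ℓ → K) :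
    pullback φ (linForm c) = linForm (fun k => c ⬝ᵥ φ (Pi.single k 1)) := by
  simp only [pullback, linForm, map_sum, map_mul, aeval_X, dotProduct]
  have : ∀ a : K, (aeval fun j : Fin ℓ => ∑ k, C (φ (Pi.single k 1) j) * X k :
      MvPolynomial (Fin ℓ) K →ₐ[K] MvPolynomial (Fin d) K) (C a) = C a := by
    intro a
    simp [algebraMap_eq]
  simp only [this, Finset.mul_sum, Finset.sum_mul, ← mul_assoc, ← C_mul]
  rw [Finset.sum_comm]

lemma linForm_dot {d ℓ : ℕ} (φ : (Fin d → K) →ₗ[K] (Fin ℓ → K)) (c : Fin ℓ → K)
    (w : Fin d → K) : (fun k => c ⬝ᵥ φ (Pi.single k 1)) ⬝ᵥ w = c ⬝ᵥ φ w := by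
  have hw : w = ∑ k, w k • (Pi.single k (1 : K) : Fin d → K) := by
    ext j
    simp [Finset.sum_apply, Pi.single_apply]
  conv_rhs => rw [hw, map_sum]
  simp only [map_smul, dotProduct, Finset.sum_apply, Pi.smul_apply, smul_eq_mul]
  simp only [Finset.mul_sum, Finset.sum_mul]
  rw [Finset.sum_comm]
  refine Finset.sum_congr rfl fun k _ => Finset.sum_congr rfl fun j _ => ?_
  ring

lemma pullback_X {d ℓ : ℕ} (φ : (Fin d → K) →ₗ[K] (Fin ℓ → K)) (j : Fin ℓ) :
    pullback φ (X j) = linForm (fun k => φ (Pi.single k 1) j) := by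
  simp [pullback]

/-- If `ψ ∘ φ = id` then `pullback φ ∘ pullback ψ = id`. -/
lemma pullback_comp_eq_id {d ℓ : ℕ} (φ : (Fin d → K) →ₗ[K] (Fin ℓ → K))
    (ψ : (Fin ℓ → K) →ₗ[K] (Fin d → K)) (h : ψ ∘ₗ φ = LinearMap.id) (f : MvPolynomial (Fin d) K) :
    pullback φ (pullback ψ f) = f := by
  have : (pullback φ).comp (pullback ψ) = AlgHom.id K _ := by
    apply MvPolynomial.algHom_ext
    intro j
    rw [AlgHom.comp_apply, pullback_X, pullback_linForm, AlgHom.id_apply, ← linForm_single j]
    congr 1
    ext k
    have h1 := linForm_dot ψ (Pi.single j 1) (φ (Pi.single k 1))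
    have h2 : (fun k => (Pi.single j (1 : K) : Fin d → K) ⬝ᵥ ψ (Pi.single k 1))
      = fun k => ψ (Pi.single k 1) j := by
      ext k
      simp
    rw [h2] at h1
    rw [h1]
    have h3 : ψ (φ (Pi.single k 1)) = Pi.single k 1 := by
      have := congrArg (fun F => F (Pi.single k 1)) h
      simpa using this
    rw [h3]
    simp [Pi.single_apply, eq_comm]
  exact congrArg (fun F => F f) this

/-- The kernel of the pull-back along an injective linear map is the ideal of its range. -/
lemma pullback_surj_ker {d ℓ : ℕ} (φ : (Fin d → K) →ₗ[K] (Fin ℓ → K))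
    (hφ : Function.Injective φ) :
    Function.Surjective (pullback φ) ∧
      RingHom.ker (pullback φ) = subspaceIdeal (LinearMap.range φ) := by
  obtain ⟨ψ, hψ⟩ := φ.exists_leftInverse_of_injective (LinearMap.ker_eq_bot.mpr hφ)
  refine ⟨fun f => ⟨pullback ψ f, pullback_comp_eq_id φ ψ hψ f⟩, ?_⟩
  apply le_antisymm
  · -- every polynomial is congruent to its retraction
    have key : ∀ f, f - pullback ψ (pullback φ f) ∈ subspaceIdeal (LinearMap.range φ) := by
      intro f
      rw [← Ideal.Quotient.eq]
      have : (Ideal.Quotient.mkₐ K (subspaceIdeal (LinearMap.range φ))) =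
          (Ideal.Quotient.mkₐ K (subspaceIdeal (LinearMap.range φ))).comp
            ((pullback ψ).comp (pullback φ)) := by
        apply MvPolynomial.algHom_ext
        intro j
        rw [AlgHom.comp_apply, AlgHom.comp_apply, pullback_X, pullback_linForm,
          ← linForm_single j]
        simp only [Ideal.Quotient.mkₐ_eq_mk]
        rw [Ideal.Quotient.eq, ← linForm_sub]
        apply Ideal.subset_span
        refine ⟨_, ?_, rfl⟩
        rintro _ ⟨w, rfl⟩
        rw [sub_dotProduct]
        have e1 := linForm_dot ψ (fun k => φ (Pi.single k 1) j) (φ w)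
        rw [e1]
        have e2 : ψ (φ w) = w := by
          have := congrArg (fun F => F w) hψ
          simpa using this
        rw [e2]
        have e3 := linForm_dot φ (Pi.single j 1) w
        have e4 : (fun k => (Pi.single j (1 : K) : Fin ℓ → K) ⬝ᵥ φ (Pi.single k 1))
          = fun k => φ (Pi.single k 1) j := by
          ext k
          simp
        rw [e4] at e3
        rw [e3, sub_self]
      exact congrArg (fun F => F f) this
    intro f hf
    have h := key f
    rw [RingHom.mem_ker] at hf
    rw [hf, map_zero, sub_zero] at h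
    exact h
  · rw [subspaceIdeal, Ideal.span_le]
    rintro f ⟨c, hc, rfl⟩
    rw [SetLike.mem_coe, RingHom.mem_ker, pullback_linForm]
    have : (fun k => c ⬝ᵥ φ (Pi.single k 1)) = 0 := by
      ext k
      exact hc _ ⟨_, rfl⟩
    rw [this]
    simp [linForm]

/-- linear forms vanishing on the common zero set of `c₁, …` lie in their span -/
lemma mem_span_of_vanish {n m : ℕ} (L : Fin m → Fin n → K) (c : Fin n → K)
    (h : ∀ x : Fin n → K, (∀ i, L i ⬝ᵥ x = 0) → c ⬝ᵥ x = 0) :
    c ∈ Submodule.span K (Set.range L) := by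
  classical
  let F : (Fin n → K) ≃ₗ[K] Module.Dual K (Fin n → K) := dotProductEquiv K (Fin n)
  have hF : ∀ c x, F c x = c ⬝ᵥ x := fun c x => rfl
  have h1 : F c ∈ Submodule.span K (Set.range fun i => F (L i)) := by
    apply mem_span_of_iInf_ker_le_ker
    intro x hx
    rw [Submodule.mem_iInf] at hx
    rw [LinearMap.mem_ker, hF]
    apply h
    intro i
    have := hx i
    rwa [LinearMap.mem_ker, hF] at this
  have h2 : (Set.range fun i => F (L i)) = F '' Set.range L := by
    rw [← Set.range_comp]
    rfl
  rw [h2] at h1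
  have h3 : F c ∈ Submodule.map F.toLinearMap (Submodule.span K (Set.range L)) := by
    rw [Submodule.map_span]
    exact h1
  obtain ⟨c', hc', e⟩ := h3
  have : c' = c := F.injective e
  rwa [this] at hc'

end Pool.Agent.ResIdeal
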