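import Pool.Agent.ResIdeal.Gens

/-!
# The residue ideal of a free arrangement in `K^ℓ` is generated by at most `ℓ` elements
-/

set_option autoImplicit false

open MvPolynomial

namespace Pool.Agent.ResIdeal

universe u

variable {K : Type u} [Field K]

namespace Arrangement

variable {ℓ : ℕ} (A : Arrangement K ℓ)

/-- the parametrisation of `H` as a linear map -/
noncomputable abbrev par (i : Fin A.card) {d : ℕ} (φ : (Fin d → K) ≃ₗ[K] A.hyperplane i) :
    (Fin d → K) →ₗ[K] (Fin ℓ → K) := (A.hyperplane i).subtype ∘ₗ φ.toLinearMap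

variable (i : Fin A.card) {d : ℕ} (φ : (Fin d → K) ≃ₗ[K] A.hyperplane i)

lemma par_injective : Function.Injective (A.par i φ) :=
  (Submodule.injective_subtype _).comp φ.injective

lemma par_mem (w : Fin d → K) : A.α i ⬝ᵥ A.par i φ w = 0 := (φ w).2

lemma par_surj (x : Fin ℓ → K) (hx : A.α i ⬝ᵥ x = 0) : ∃ w, A.par i φ w = x := by
  obtain ⟨w, hw⟩ := φ.surjective ⟨x, hx⟩
  exact ⟨w, by simp [par, hw]⟩

/-- the restricted coefficient vector -/
noncomputable def resVec (c : Fin ℓ → K) : Fin d → K := fun k => c ⬝ᵥ A.par i φ (Pi.single k 1)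

lemma pullback_par (c : Fin ℓ → K) :
    MvPolynomial.C (σ := Fin d) (1 : K) * pullback (A.par i φ) (linForm c)
      = linForm (A.resVec i φ c) := by
  rw [C_1, one_mul, pullback_linForm]
  rfl

lemma pullback_par' (c : Fin ℓ → K) :
    pullback (A.par i φ) (linForm c) = linForm (A.resVec i φ c) := pullback_linForm _ _

lemma resVec_dot (c : Fin ℓ → K) (w : Fin d → K) :
    A.resVec i φ c ⬝ᵥ w = c ⬝ᵥ A.par i φ w := linForm_dot _ _ _

lemma resVec_self : A.resVec i φ (A.α i) = 0 := by
  ext k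
  exact A.par_mem i φ _

lemma resVec_ne_zero {j : Fin A.card} (hj : j ≠ i) : A.resVec i φ (A.α j) ≠ 0 := by
  intro h
  have h1 : A.α j ∈ Submodule.span K (Set.range (fun _ : Fin 1 => A.α i)) := by
    apply mem_span_of_vanish
    intro x hx
    obtain ⟨w, rfl⟩ := A.par_surj i φ x (hx 0)
    rw [← resVec_dot, h, zero_dotProduct]
  rw [Set.range_const, Submodule.mem_span_singleton] at h1
  obtain ⟨t, ht⟩ := h1
  exact A.not_smul hj.symm t ht.symm

lemma restQ_ne_zero : A.restQ i φ ≠ 0 := by
  rw [restQ, Finset.prod_ne_zero_iff]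
  intro j hj
  rw [Finset.mem_filter] at hj
  have := A.pullback_par' i φ (A.α j)
  rw [par] at this
  rw [this]
  exact linForm_ne_zero (A.resVec_ne_zero i φ hj.2)

/-- the reduced defining polynomial of the restriction -/
noncomputable def redQ : MvPolynomial (Fin d) K :=
  ∏ j ∈ A.firstReps i, linForm (A.resVec i φ (A.α j))

lemma restQ_eq : A.restQ i φ = A.polyB i φ * A.redQ i φ := by
  have h1 : (Finset.univ.filter (fun j => j ≠ i)) =
      (Finset.univ.filter (fun j => j ≠ i ∧ j ∉ A.firstReps i)) ∪ A.firstReps i := by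
    ext j
    simp only [Finset.mem_filter, Finset.mem_univ, true_and, Finset.mem_union]
    constructor
    · intro h
      by_cases h2 : j ∈ A.firstReps i
      · exact Or.inr h2
      · exact Or.inl ⟨h, h2⟩
    · rintro (h | h)
      · exact h.1
      · rw [firstReps, Finset.mem_filter] at h
        exact h.2.1
  have h2 : Disjoint (Finset.univ.filter (fun j => j ≠ i ∧ j ∉ A.firstReps i))
      (A.firstReps i) := by
    rw [Finset.disjoint_left]
    intro j hj hj'
    rw [Finset.mem_filter] at hj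
    exact hj.2.2 hj'
  rw [restQ, h1, Finset.prod_union h2, polyB, redQ]
  congr 1
  refine Finset.prod_congr rfl fun j _ => ?_
  exact A.pullback_par' i φ (A.α j)

lemma exists_gamma {g : Fin ℓ → MvPolynomial (Fin ℓ) K} (hg : g ∈ A.logForm) :
    ∃ γ, ∀ k, pullback (A.par i φ) (g k) = C (A.α i k) * γ := by
  obtain ⟨k0, hk0⟩ := Function.ne_iff.mp (A.ne_zero i)
  simp only [Pi.zero_apply] at hk0
  refine ⟨C (A.α i k0)⁻¹ * pullback (A.par i φ) (g k0), ?_⟩
  intro k
  have h1 : pullback (A.par i φ) (g k * C (A.α i k0) - g k0 * C (A.α i k)) = 0 := by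
    obtain ⟨q, hq⟩ := hg i k k0
    rw [hq, map_mul, A.pullback_par', A.resVec_self]
    simp [linForm]
  have h2 : ∀ a : K, pullback (A.par i φ) (C a) = C a := by
    intro a
    have := (pullback (A.par i φ)).commutes a
    exact this
  rw [map_sub, map_mul, map_mul, h2, h2, sub_eq_zero] at h1
  have h3 : (C (A.α i k0) : MvPolynomial (Fin d) K) * C (A.α i k0)⁻¹ = 1 := by
    rw [← C_mul, mul_inv_cancel₀ hk0, C_1]
  calc pullback (A.par i φ) (g k)
      = (pullback (A.par i φ) (g k) * C (A.α i k0)) * C (A.α i k0)⁻¹ := by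
        rw [mul_assoc, h3, mul_one]
    _ = C (A.α i k) * (C (A.α i k0)⁻¹ * pullback (A.par i φ) (g k0)) := by
        rw [h1]; ring

lemma redQ_dvd {g : Fin ℓ → MvPolynomial (Fin ℓ) K} (hg : g ∈ A.logForm)
    {γ : MvPolynomial (Fin d) K} (hγ : ∀ k, pullback (A.par i φ) (g k) = C (A.α i k) * γ) :
    A.redQ i φ ∣ γ := by
  apply Finset.prod_dvd_of_isRelPrime
  · intro j hj k hk hjk
    have hj' : j ∈ A.firstReps i := hj
    have hk' : k ∈ A.firstReps i := hk
    rw [firstReps, Finset.mem_filter] at hj' hk'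
    refine (prime_linForm (A.resVec_ne_zero i φ hj'.2.1)).irreducible.isRelPrime_iff_not_dvd.mpr ?_
    intro hdvd
    obtain ⟨t, ht⟩ := exists_smul_of_linForm_dvd hdvd
    have ht0 : t ≠ 0 := by
      rintro rfl
      rw [zero_smul] at ht
      exact A.resVec_ne_zero i φ hk'.2.1 ht
    have heq : A.hyperplane j ⊓ A.hyperplane i = A.hyperplane k ⊓ A.hyperplane i := by
      ext x
      simp only [Submodule.mem_inf]
      constructor
      · rintro ⟨h1, h2⟩
        refine ⟨?_, h2⟩
        obtain ⟨w, rfl⟩ := A.par_surj i φ x h2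
        change A.α k ⬝ᵥ A.par i φ w = 0
        change A.α j ⬝ᵥ A.par i φ w = 0 at h1
        rw [← resVec_dot] at h1 ⊢
        rw [ht, smul_dotProduct, h1, smul_zero]
      · rintro ⟨h1, h2⟩
        refine ⟨?_, h2⟩
        obtain ⟨w, rfl⟩ := A.par_surj i φ x h2
        change A.α j ⬝ᵥ A.par i φ w = 0
        change A.α k ⬝ᵥ A.par i φ w = 0 at h1
        rw [← resVec_dot] at h1 ⊢
        rw [ht, smul_dotProduct, smul_eq_mul] at h1
        exact (mul_eq_zero.mp h1).resolve_left ht0
    rcases lt_trichotomy j k with h | h | h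
    · exact hk'.2.2 j h hj'.2.1 heq
    · exact hjk h
    · exact hj'.2.2 k h hk'.2.1 heq.symm
  · intro j hj
    rw [firstReps, Finset.mem_filter] at hj
    -- a non-vanishing minor
    have hminor : ∃ k l, A.α i k * A.α j l - A.α i l * A.α j k ≠ 0 := by
      by_contra hcon
      push Not at hcon
      obtain ⟨k0, hk0⟩ := Function.ne_iff.mp (A.ne_zero i)
      simp only [Pi.zero_apply] at hk0
      refine A.not_smul hj.2.1.symm (A.α j k0 / A.α i k0) ?_
      ext l
      have := hcon k0 l
      simp only [Pi.smul_apply, smul_eq_mul]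
      field_simp
      linear_combination this
    obtain ⟨k, l, hkl⟩ := hminor
    have h1 : linForm (A.resVec i φ (A.α j)) ∣
        pullback (A.par i φ) (g k * C (A.α j l) - g l * C (A.α j k)) := by
      obtain ⟨q, hq⟩ := hg j k l
      rw [hq, map_mul, A.pullback_par']
      exact dvd_mul_right _ _
    have h2 : ∀ a : K, pullback (A.par i φ) (C a) = C a := by
      intro a
      have := (pullback (A.par i φ)).commutes a
      exact this
    rw [map_sub, map_mul, map_mul, h2, h2, hγ, hγ] at h1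
    have h3 : C (A.α i k) * γ * C (A.α j l) - C (A.α i l) * γ * C (A.α j k)
        = C (A.α i k * A.α j l - A.α i l * A.α j k) * γ := by
      rw [C_sub, C_mul, C_mul]
      ring
    rw [h3] at h1
    have hu : IsUnit (C (A.α i k * A.α j l - A.α i l * A.α j k) : MvPolynomial (Fin d) K) :=
      (isUnit_iff_ne_zero.mpr hkl).map C
    exact (hu.dvd_mul_left).mp h1

/-- The residue ideal of a free arrangement is generated by at most `ℓ` elements. -/
theorem residueIdeal_gens (hA : A.IsFree) :
    ∃ m : ℕ, m ≤ ℓ ∧ ∃ F : Fin m → MvPolynomial (Fin d) K,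
      A.residueIdeal i φ = Ideal.span (Set.range F) := by
  obtain ⟨m, hm, G, hG, hgen⟩ := A.exists_generators hA
  refine ⟨m, hm, ?_⟩
  have h1 : ∀ κ, ∃ γ, ∀ k, pullback (A.par i φ) (G κ k) = C (A.α i k) * γ :=
    fun κ => A.exists_gamma i φ (hG κ)
  choose γ hγ using h1
  have h2 : ∀ κ, ∃ f, γ κ = A.redQ i φ * f := fun κ => A.redQ_dvd i φ (hG κ) (hγ κ)
  choose F hF using h2
  refine ⟨F, ?_⟩
  apply le_antisymm
  · rw [residueIdeal, Ideal.span_le]
    rintro f ⟨g, hg, δ, hδ, hf⟩
    obtain ⟨c, hc⟩ := hgen g hg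
    obtain ⟨k0, hk0⟩ := Function.ne_iff.mp (A.ne_zero i)
    simp only [Pi.zero_apply] at hk0
    have hδ' : ∀ k, pullback (A.par i φ) (g k) = C (A.α i k) * δ := hδ
    have e1 : C (A.α i k0) * δ = C (A.α i k0) * ∑ κ, pullback (A.par i φ) (c κ) * γ κ := by
      rw [← hδ' k0, hc]
      simp only [Finset.sum_apply, Pi.smul_apply, smul_eq_mul, map_sum, map_mul, hγ,
        Finset.mul_sum]
      refine Finset.sum_congr rfl fun κ _ => ?_
      ring
    have hC : (C (A.α i k0) : MvPolynomial (Fin d) K) ≠ 0 := by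
      rw [Ne, C_eq_zero]
      exact hk0
    have e2 := mul_left_cancel₀ hC e1
    have e3 : f * A.restQ i φ = (∑ κ, pullback (A.par i φ) (c κ) * F κ) * A.restQ i φ := by
      rw [hf, e2, A.restQ_eq]
      simp only [hF, Finset.mul_sum, Finset.sum_mul]
      refine Finset.sum_congr rfl fun κ _ => ?_
      ring
    have e4 := mul_right_cancel₀ (A.restQ_ne_zero i φ) e3
    rw [e4]
    apply Ideal.sum_mem
    intro κ _
    exact Ideal.mul_mem_left _ _ (Ideal.subset_span ⟨κ, rfl⟩)
  · rw [Ideal.span_le]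
    rintro _ ⟨κ, rfl⟩
    apply Ideal.subset_span
    refine ⟨G κ, hG κ, γ κ, hγ κ, ?_⟩
    rw [A.restQ_eq, hF κ]
    ring

end Arrangement

end Pool.Agent.ResIdeal
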