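import Pool.Agent.ResIdeal.CM2

/-!
# Six linear forms in four variables, any three independent over every field
-/

set_option autoImplicit false

open MvPolynomial

namespace Pool.Agent.ResIdeal

universe u

/-- integer coefficient vectors: `x, y, z, t, x+y+z, x+y+t` -/
def zVec : Fin 6 → Fin 4 → ℤ :=
  ![![1, 0, 0, 0], ![0, 1, 0, 0], ![0, 0, 1, 0], ![0, 0, 0, 1], ![1, 1, 1, 0], ![1, 1, 0, 1]]

lemma zVec_minor2 : ∀ i j : Fin 6, i ≠ j → ∃ c d : Fin 4,
    zVec i c * zVec j d - zVec i d * zVec j c = 1 := by decide +kernel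

lemma zVec_minor3 : ∀ i j k : Fin 6, i ≠ j → k ≠ i → k ≠ j → ∃ c d e : Fin 4,
    zVec i c * (zVec j d * zVec k e - zVec j e * zVec k d)
      - zVec i d * (zVec j c * zVec k e - zVec j e * zVec k c)
      + zVec i e * (zVec j c * zVec k d - zVec j d * zVec k c) = 1 := by decide +kernel

variable (K : Type u) [Field K]

/-- the six coefficient vectors over `K` -/
def starVec (i : Fin 6) : Fin 4 → K := fun j => (zVec i j : K)

variable {K}

lemma starVec_not_comb {i j k : Fin 6} (hij : i ≠ j) (hki : k ≠ i) (hkj : k ≠ j) (s t : K) :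
    starVec K k ≠ s • starVec K i + t • starVec K j := by
  intro h
  obtain ⟨c, d, e, hdet⟩ := zVec_minor3 i j k hij hki hkj
  have hdet' := congrArg (Int.cast : ℤ → K) hdet
  push_cast at hdet'
  have hc : ∀ x, (zVec k x : K) = s * zVec i x + t * zVec j x := fun x => congrFun h x
  rw [hc c, hc d, hc e] at hdet'
  have : (0 : K) = 1 := by
    rw [← hdet']
    ring
  exact zero_ne_one this

lemma exists_third (i j : Fin 6) : ∃ k, k ≠ i ∧ k ≠ j := by
  revert i j
  decide

lemma starVec_ne_zero (i : Fin 6) : starVec K i ≠ 0 := by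
  intro h
  obtain ⟨j, hj, -⟩ := exists_third i i
  obtain ⟨k, hki, hkj⟩ := exists_third i j
  refine starVec_not_comb hkj (Ne.symm hki) (Ne.symm hj) 0 0 (K := K) ?_
  rw [h]
  simp

/-- the six linear forms -/
noncomputable abbrev sf (K : Type u) [Field K] (i : Fin 6) : MvPolynomial (Fin 4) K :=
  linForm (starVec K i)

/-- the plane `ℓ_i = ℓ_j = 0` -/
def starSub (K : Type u) [Field K] (i j : Fin 6) : Submodule K (Fin 4 → K) where
  carrier := {x | starVec K i ⬝ᵥ x = 0 ∧ starVec K j ⬝ᵥ x = 0}
  add_mem' {x y} hx hy := by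
    refine ⟨?_, ?_⟩
    · rw [dotProduct_add, hx.1, hy.1, add_zero]
    · rw [dotProduct_add, hx.2, hy.2, add_zero]
  zero_mem' := by simp
  smul_mem' c x hx := by
    refine ⟨?_, ?_⟩
    · rw [dotProduct_smul, hx.1, smul_zero]
    · rw [dotProduct_smul, hx.2, smul_zero]

lemma mem_starSub {i j : Fin 6} {x : Fin 4 → K} :
    x ∈ starSub K i j ↔ starVec K i ⬝ᵥ x = 0 ∧ starVec K j ⬝ᵥ x = 0 := Iff.rfl

lemma finrank_starSub {i j : Fin 6} (hij : i ≠ j) : Module.finrank K (starSub K i j) = 2 := by
  let F : (Fin 4 → K) →ₗ[K] (Fin 2 → K) :=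
    { toFun := fun x => ![starVec K i ⬝ᵥ x, starVec K j ⬝ᵥ x]
      map_add' := by
        intro x y
        ext k
        fin_cases k <;> simp [dotProduct_add]
      map_smul' := by
        intro c x
        ext k
        fin_cases k <;> simp [dotProduct_smul] }
  have hker : LinearMap.ker F = starSub K i j := by
    ext x
    rw [LinearMap.mem_ker, mem_starSub]
    constructor
    · intro h
      exact ⟨congrFun h 0, congrFun h 1⟩
    · rintro ⟨h1, h2⟩
      ext k
      fin_cases k
      · exact h1
      · exact h2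
  have hsurj : LinearMap.range F = ⊤ := by
    rw [LinearMap.range_eq_top]
    obtain ⟨c, d, hcd⟩ := zVec_minor2 i j hij
    have hcd' := congrArg (Int.cast : ℤ → K) hcd
    push_cast at hcd'
    intro w
    refine ⟨w 0 • ((zVec j d : K) • Pi.single c 1 - (zVec j c : K) • Pi.single d 1) +
      w 1 • ((zVec i c : K) • Pi.single d 1 - (zVec i d : K) • Pi.single c 1), ?_⟩
    ext k
    fin_cases k
    · simp only [F, LinearMap.coe_mk, AddHom.coe_mk, dotProduct_add, dotProduct_smul,
        dotProduct_sub, dotProduct_single_one, smul_eq_mul, starVec]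
      simp only [Fin.zero_eta, Matrix.cons_val_zero]
      linear_combination (w 0) * hcd'
    · simp only [F, LinearMap.coe_mk, AddHom.coe_mk, dotProduct_add, dotProduct_smul,
        dotProduct_sub, dotProduct_single_one, smul_eq_mul, starVec]
      simp only [Fin.mk_one, Matrix.cons_val_one]
      simp only [Matrix.cons_val_fin_one]
      linear_combination (w 1) * hcd'
  have h := LinearMap.finrank_range_add_finrank_ker F
  rw [hsurj, hker, finrank_top, Module.finrank_fintype_fun_eq_card,
    Module.finrank_fintype_fun_eq_card, Fintype.card_fin, Fintype.card_fin] at h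
  omega

lemma subspaceIdeal_starSub (i j : Fin 6) :
    subspaceIdeal (starSub K i j) = Ideal.span {sf K i, sf K j} := by
  apply le_antisymm
  · rw [subspaceIdeal, Ideal.span_le]
    rintro f ⟨c, hc, rfl⟩
    have h1 : c ∈ Submodule.span K (Set.range ![starVec K i, starVec K j]) := by
      apply mem_span_of_vanish
      intro x hx
      exact hc x ⟨hx 0, hx 1⟩
    rw [Matrix.range_cons, Matrix.range_cons, Matrix.range_empty, Set.union_empty,
      Set.singleton_union, Submodule.mem_span_pair] at h1
    obtain ⟨s, t, rfl⟩ := h1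
    rw [SetLike.mem_coe, Ideal.mem_span_pair, linForm_add, linForm_smul, linForm_smul]
    exact ⟨_, _, rfl⟩
  · rw [Ideal.span_le]
    intro z hz
    simp only [Set.mem_insert_iff, Set.mem_singleton_iff] at hz
    rcases hz with rfl | rfl
    · exact Ideal.subset_span ⟨_, fun x hx => hx.1, rfl⟩
    · exact Ideal.subset_span ⟨_, fun x hx => hx.2, rfl⟩

lemma exists_chart {i j : Fin 6} (hij : i ≠ j) :
    ∃ π : MvPolynomial (Fin 4) K →+* MvPolynomial (Fin 2) K, Function.Surjective π ∧
      RingHom.ker π = Ideal.span {sf K i, sf K j} := by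
  have e : (Fin 2 → K) ≃ₗ[K] starSub K i j := by
    apply LinearEquiv.ofFinrankEq
    rw [finrank_starSub hij, Module.finrank_fintype_fun_eq_card, Fintype.card_fin]
  let φ : (Fin 2 → K) →ₗ[K] (Fin 4 → K) := (starSub K i j).subtype ∘ₗ e.toLinearMap
  have hφ : Function.Injective φ := (Submodule.injective_subtype _).comp e.injective
  obtain ⟨h1, h2⟩ := pullback_surj_ker φ hφ
  refine ⟨(pullback φ : MvPolynomial (Fin 4) K →+* MvPolynomial (Fin 2) K), h1, ?_⟩
  have hrange : LinearMap.range φ = starSub K i j := by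
    rw [LinearMap.range_comp, LinearEquiv.range, Submodule.map_top, Submodule.range_subtype]
  rw [← subspaceIdeal_starSub, ← hrange, ← h2]
  rfl

lemma starData_sf : StarData (sf K) where
  prime i := prime_linForm (starVec_ne_zero i)
  not_dvd i j hij := by
    intro h
    obtain ⟨t, ht⟩ := exists_smul_of_linForm_dvd h
    obtain ⟨k, hki, hkj⟩ := exists_third i j
    refine starVec_not_comb (Ne.symm hki) (Ne.symm hij) (Ne.symm hkj) t 0 (K := K) ?_
    rw [ht]
    simp
  pair_prime i j hij := by
    obtain ⟨π, -, h2⟩ := exists_chart (K := K) hij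
    rw [← h2]
    exact RingHom.ker_isPrime _
  notMem i j k hij hki hkj := by
    intro h
    rw [Ideal.mem_span_pair] at h
    obtain ⟨f, g, hfg⟩ := h
    have h1 : starVec K k ∈ Submodule.span K (Set.range ![starVec K i, starVec K j]) := by
      apply mem_span_of_vanish
      intro x hx
      have e1 : starVec K i ⬝ᵥ x = 0 := hx 0
      have e2 : starVec K j ⬝ᵥ x = 0 := hx 1
      rw [← eval_linForm]
      have := congrArg (MvPolynomial.eval x) hfg
      rw [← this, map_add, map_mul, map_mul, eval_linForm, eval_linForm, e1, e2]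
      ring
    rw [Matrix.range_cons, Matrix.range_cons, Matrix.range_empty, Set.union_empty,
      Set.singleton_union, Submodule.mem_span_pair] at h1
    obtain ⟨s, t, hst⟩ := h1
    exact starVec_not_comb hij hki hkj s t hst.symm

open scoped Classical in
/-- the arrangement of the fifteen planes `ℓ_i = ℓ_j = 0` in `K^4` -/
noncomputable def starArr (K : Type u) [Field K] : Finset (Submodule K (Fin 4 → K)) :=
  (Finset.univ : Finset (Fin 6)).offDiag.image (fun p => starSub K p.1 p.2)

lemma definingIdeal_starArr :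
    definingIdeal (starArr K) = starIdeal (sf K) Finset.univ := by
  classical
  ext f
  rw [definingIdeal, mem_starIdeal]
  simp only [Submodule.mem_iInf]
  constructor
  · intro h i _ j _ hij
    have := h (starSub K i j) (Finset.mem_image.mpr
      ⟨(i, j), Finset.mem_offDiag.mpr ⟨Finset.mem_univ _, Finset.mem_univ _, hij⟩, rfl⟩)
    rwa [subspaceIdeal_starSub] at this
  · intro h X hX
    obtain ⟨⟨i, j⟩, hp, rfl⟩ := Finset.mem_image.mp hX
    rw [Finset.mem_offDiag] at hp
    simp only at hp ⊢
    rw [subspaceIdeal_starSub]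
    exact h i (Finset.mem_univ _) j (Finset.mem_univ _) hp.2.2

lemma finrank_of_mem_starArr {X : Submodule K (Fin 4 → K)} (hX : X ∈ starArr K) :
    Module.finrank K X = 2 := by
  classical
  obtain ⟨⟨i, j⟩, hp, rfl⟩ := Finset.mem_image.mp hX
  rw [Finset.mem_offDiag] at hp
  exact finrank_starSub hp.2.2

theorem isCM_starArr : IsCohenMacaulayRing (MvPolynomial (Fin 4) K ⧸ definingIdeal (starArr K)) := by
  classical
  rw [definingIdeal_starArr]
  have h : ∀ i j : Fin 6, ∃ π : MvPolynomial (Fin 4) K →+* MvPolynomial (Fin 2) K,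
      i ≠ j → (Function.Surjective π ∧ RingHom.ker π = Ideal.span {sf K i, sf K j}) := by
    intro i j
    by_cases hij : i = j
    · obtain ⟨π, -⟩ := exists_chart (K := K) (i := 0) (j := 1) (by decide)
      exact ⟨π, fun h => absurd hij h⟩
    · obtain ⟨π, hπ⟩ := exists_chart (K := K) hij
      exact ⟨π, fun _ => hπ⟩
  choose π hπ using h
  exact isCM_star starData_sf Finset.univ Finset.univ_nonempty π (fun i j hij => (hπ i j hij).1)
    (fun i j hij => (hπ i j hij).2) Finset.mem_univ

end Pool.Agent.ResIdeal
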