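import Pool.Agent.ResIdeal.ResGens

/-!
# Star configurations in an abstract commutative ring
-/

set_option autoImplicit false

open MvPolynomial

namespace Pool.Agent.ResIdeal

universe u v

/-- Data of a star configuration: prime elements such that any two generate a prime ideal
containing no third one. -/
structure StarData {S : Type u} [CommRing S] [IsDomain S] {ι : Type v} (a : ι → S) : Prop where
  /-- the elements are prime -/
  prime : ∀ i, Prime (a i)
  /-- no divisibility relations -/
  not_dvd : ∀ i j, i ≠ j → ¬ a i ∣ a j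
  /-- pairs generate prime ideals -/
  pair_prime : ∀ i j, i ≠ j → (Ideal.span {a i, a j}).IsPrime
  /-- third elements are not contained in the prime of a pair -/
  notMem : ∀ i j k, i ≠ j → k ≠ i → k ≠ j → a k ∉ Ideal.span {a i, a j}

/-- membership in the star ideal of a finite index set -/
def InStar {S : Type u} [CommRing S] {ι : Type v} (a : ι → S) (T : Finset ι) (f : S) : Prop :=
  ∀ i ∈ T, ∀ j ∈ T, i ≠ j → f ∈ Ideal.span {a i, a j}

/-- the star ideal of a finite index set -/
def starIdeal {S : Type u} [CommRing S] {ι : Type v} (a : ι → S) (T : Finset ι) : Ideal S where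
  carrier := {f | InStar a T f}
  add_mem' hx hy i hi j hj hij := Ideal.add_mem _ (hx i hi j hj hij) (hy i hi j hj hij)
  zero_mem' _ _ _ _ _ := Ideal.zero_mem _
  smul_mem' c _ hx i hi j hj hij := Ideal.mul_mem_left _ c (hx i hi j hj hij)

section

variable {S : Type u} [CommRing S] [IsDomain S] {ι : Type v} {a : ι → S}

omit [IsDomain S] in
lemma mem_starIdeal {T : Finset ι} {f : S} : f ∈ starIdeal a T ↔ InStar a T f := Iff.rfl

lemma StarData.prod_notMem (h : StarData a) {T : Finset ι} {j k : ι} (hjk : j ≠ k) (hj : j ∉ T)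
    (hk : k ∉ T) : ∏ i ∈ T, a i ∉ Ideal.span {a j, a k} := by
  intro hmem
  have hp := h.pair_prime j k hjk
  rw [hp.prod_mem_iff] at hmem
  obtain ⟨i, hi, him⟩ := hmem
  exact h.notMem j k i hjk (fun e => hj (e ▸ hi)) (fun e => hk (e ▸ hi)) him

lemma StarData.mod_eq (h : StarData a) {k : ι} (T : Finset ι) (hk : k ∉ T) (f : S)
    (hf : ∀ i ∈ T, f ∈ Ideal.span {a i, a k}) :
    ∃ c g, f = c * ∏ i ∈ T, a i + a k * g := by
  classical
  induction T using Finset.induction_on with
  | empty => exact ⟨f, 0, by simp⟩
  | insert j T hj ih =>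
    have hk' : k ∉ T := fun hh => hk (Finset.mem_insert_of_mem hh)
    have hkj : j ≠ k := fun e => hk (e ▸ Finset.mem_insert_self _ _)
    obtain ⟨c, g, hcg⟩ := ih hk' (fun i hi => hf i (Finset.mem_insert_of_mem hi))
    have h1 : f ∈ Ideal.span {a j, a k} := hf j (Finset.mem_insert_self _ _)
    have h2 : c * ∏ i ∈ T, a i ∈ Ideal.span {a j, a k} := by
      have h3 : a k * g ∈ Ideal.span {a j, a k} :=
        Ideal.mul_mem_right _ _ (Ideal.subset_span (by simp))
      have h4 := Ideal.sub_mem _ h1 h3
      rwa [hcg, add_sub_cancel_right] at h4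
    have h5 : c ∈ Ideal.span {a j, a k} :=
      ((h.pair_prime j k hkj).mem_or_mem h2).resolve_right (h.prod_notMem hkj hj hk')
    rw [Ideal.mem_span_pair] at h5
    obtain ⟨s, t, hst⟩ := h5
    refine ⟨s, g + t * ∏ i ∈ T, a i, ?_⟩
    rw [Finset.prod_insert hj, hcg, ← hst]
    ring

omit [IsDomain S] in
lemma prod_inStar (T : Finset ι) : InStar a T (∏ i ∈ T, a i) := by
  intro i hi j _ _
  obtain ⟨q, hq⟩ := Finset.dvd_prod_of_mem a hi
  rw [hq]
  exact Ideal.mul_mem_right _ _ (Ideal.subset_span (by simp))

lemma StarData.insert_eq [DecidableEq ι] (h : StarData a) {k : ι} (T : Finset ι) (hk : k ∉ T)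
    (f : S) (hf : InStar a (insert k T) f) :
    ∃ c g, f = c * ∏ i ∈ T, a i + a k * g ∧ InStar a T g := by
  obtain ⟨c, g, hcg⟩ := h.mod_eq T hk f (fun i hi => hf i (Finset.mem_insert_of_mem hi) k
    (Finset.mem_insert_self _ _) (fun e => hk (e ▸ hi)))
  refine ⟨c, g, hcg, ?_⟩
  intro i hi j hj hij
  have h1 := hf i (Finset.mem_insert_of_mem hi) j (Finset.mem_insert_of_mem hj) hij
  have h2 : c * ∏ i ∈ T, a i ∈ Ideal.span {a i, a j} :=
    Ideal.mul_mem_left _ _ (prod_inStar T i hi j hj hij)
  have h3 : a k * g ∈ Ideal.span {a i, a j} := by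
    have h4 := Ideal.sub_mem _ h1 h2
    rwa [hcg, add_sub_cancel_left] at h4
  exact ((h.pair_prime i j hij).mem_or_mem h3).resolve_left
    (h.notMem i j k hij (fun e => hk (e ▸ hi)) (fun e => hk (e ▸ hj)))

/-- elements of the star ideal are combinations of the products omitting one factor -/
lemma StarData.exists_comb [DecidableEq ι] (h : StarData a) (T : Finset ι) (hT : T.Nonempty)
    (f : S) (hf : InStar a T f) :
    ∃ c : ι → S, f = ∑ i ∈ T, c i * ∏ j ∈ T.erase i, a j := by
  induction hT using Finset.Nonempty.cons_induction generalizing f with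
  | singleton k => exact ⟨fun _ => f, by simp⟩
  | cons k T hk hT ih =>
    rw [Finset.cons_eq_insert] at hf ⊢
    obtain ⟨c, g, hcg, hg⟩ := h.insert_eq T hk f hf
    obtain ⟨c', hc'⟩ := ih g hg
    refine ⟨fun i => if i = k then c else c' i, ?_⟩
    rw [Finset.sum_insert hk]
    simp only [if_true]
    rw [Finset.erase_insert hk, hcg, hc', Finset.mul_sum]
    congr 1
    refine Finset.sum_congr rfl fun i hi => ?_
    have hik : i ≠ k := fun e => hk (e ▸ hi)
    rw [if_neg hik, Finset.erase_insert_of_ne (Ne.symm hik),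
      Finset.prod_insert (fun hh => hk (Finset.mem_of_mem_erase hh))]
    ring

/-- `(x, y)` acts as a weakly regular sequence on `S / I` -/
def WR (x y : S) (I : Ideal S) : Prop :=
  (∀ f, x * f ∈ I → f ∈ I) ∧ ∀ f, y * f ∈ I ⊔ Ideal.span {x} → f ∈ I ⊔ Ideal.span {x}

omit [IsDomain S] in
lemma WR_top (x y : S) : WR x y (⊤ : Ideal S) := by
  constructor
  · intro f _
    trivial
  · intro f _
    rw [top_sup_eq]
    trivial

omit [IsDomain S] in
lemma mem_sup_span {I : Ideal S} {x f : S} :
    f ∈ I ⊔ Ideal.span {x} ↔ ∃ i ∈ I, ∃ g, f = i + x * g := by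
  rw [Submodule.mem_sup]
  constructor
  · rintro ⟨i, hi, z, hz, rfl⟩
    rw [Ideal.mem_span_singleton'] at hz
    obtain ⟨g, rfl⟩ := hz
    exact ⟨i, hi, g, by ring⟩
  · rintro ⟨i, hi, g, rfl⟩
    exact ⟨i, hi, x * g, Ideal.mul_mem_right _ _ (Ideal.mem_span_singleton_self x), rfl⟩

omit [IsDomain S] in
lemma WR.ext {x y c : S} {I I' I'' : Ideal S} (hcolon : ∀ f, c * f ∈ I ↔ f ∈ I')
    (hI'' : I'' = I ⊔ Ideal.span {c}) (h' : WR x y I') (h'' : WR x y I'') : WR x y I := by
  have hle : I ≤ I'' := by rw [hI'']; exact le_sup_left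
  have hc : c ∈ I'' := by
    rw [hI'']
    exact Ideal.mem_sup_right (Ideal.mem_span_singleton_self c)
  constructor
  · intro f hf
    have h1 : f ∈ I'' := h''.1 f (hle hf)
    rw [hI'', mem_sup_span] at h1
    obtain ⟨i, hi, g, rfl⟩ := h1
    have h2 : c * (x * g) ∈ I := by
      have : x * (i + c * g) - x * i ∈ I := Ideal.sub_mem _ hf (Ideal.mul_mem_left _ _ hi)
      have e : x * (i + c * g) - x * i = c * (x * g) := by ring
      rwa [e] at this
    have h3 := h'.1 g ((hcolon _).mp h2)
    exact Ideal.add_mem _ hi ((hcolon g).mpr h3)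
  · intro f hf
    have h1 : f ∈ I'' ⊔ Ideal.span {x} :=
      h''.2 f (sup_le_sup_right hle _ hf)
    rw [mem_sup_span] at h1
    obtain ⟨i'', hi'', t, rfl⟩ := h1
    rw [hI'', mem_sup_span] at hi''
    obtain ⟨i, hi, g, rfl⟩ := hi''
    -- `y (i + c g + x t) ∈ I + (x)`
    have h2 : c * (y * g) ∈ I ⊔ Ideal.span {x} := by
      have h3 : y * i + x * (y * t) ∈ I ⊔ Ideal.span {x} :=
        mem_sup_span.mpr ⟨y * i, Ideal.mul_mem_left _ _ hi, y * t, rfl⟩
      have h4 := Ideal.sub_mem _ hf h3
      have e : y * (i + c * g + x * t) - (y * i + x * (y * t)) = c * (y * g) := by ring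
      rwa [e] at h4
    rw [mem_sup_span] at h2
    obtain ⟨i1, hi1, w, hw⟩ := h2
    have h5 : x * w ∈ I'' := by
      have h6 : c * (y * g) - i1 ∈ I'' :=
        Ideal.sub_mem _ (Ideal.mul_mem_right _ _ hc) (hle hi1)
      rw [hw, add_sub_cancel_left] at h6
      exact h6
    have h7 := h''.1 w h5
    rw [hI'', mem_sup_span] at h7
    obtain ⟨i2, hi2, g', hg'⟩ := h7
    have h8 : c * (y * g - x * g') ∈ I := by
      have h9 : i1 + x * i2 ∈ I := Ideal.add_mem _ hi1 (Ideal.mul_mem_left _ _ hi2)
      have e : c * (y * g - x * g') = i1 + x * i2 := by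
        rw [hg'] at hw
        linear_combination hw
      rwa [e]
    have h10 := (hcolon _).mp h8
    have h11 : y * g ∈ I' ⊔ Ideal.span {x} :=
      mem_sup_span.mpr ⟨_, h10, g', by ring⟩
    have h12 := h'.2 g h11
    rw [mem_sup_span] at h12
    obtain ⟨j, hj, g'', hg''⟩ := h12
    rw [mem_sup_span]
    refine ⟨i + c * j, Ideal.add_mem _ hi ((hcolon j).mpr hj), c * g'' + t, ?_⟩
    rw [hg'']
    ring

lemma StarData.WR_pair_prod [DecidableEq ι] (h : StarData a) {x y : S}
    (hP : ∀ i j, i ≠ j → WR x y (Ideal.span {a i, a j})) {k : ι} (T : Finset ι) (hk : k ∉ T) :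
    WR x y (Ideal.span {a k, ∏ i ∈ T, a i}) := by
  induction T using Finset.induction_on with
  | empty =>
    have : Ideal.span {a k, ∏ i ∈ (∅ : Finset ι), a i} = ⊤ := by
      rw [Ideal.eq_top_iff_one]
      exact Ideal.subset_span (by simp)
    rw [this]
    exact WR_top x y
  | insert j T hj ih =>
    have hk' : k ∉ T := fun hh => hk (Finset.mem_insert_of_mem hh)
    have hkj : k ≠ j := fun e => hk (e ▸ Finset.mem_insert_self _ _)
    refine WR.ext (c := a j) (I' := Ideal.span {a k, ∏ i ∈ T, a i})
      (I'' := Ideal.span {a k, a j}) ?_ ?_ (ih hk') (hP k j hkj)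
    · intro f
      rw [Finset.prod_insert hj, Ideal.mem_span_pair, Ideal.mem_span_pair]
      constructor
      · rintro ⟨s, t, hst⟩
        have h1 : a k ∣ a j * (f - t * ∏ i ∈ T, a i) := ⟨s, by linear_combination -hst⟩
        have h2 : ¬ a k ∣ a j := h.not_dvd k j hkj
        obtain ⟨g, hg⟩ := ((h.prime k).dvd_or_dvd h1).resolve_left h2
        exact ⟨g, t, by linear_combination -hg⟩
      · rintro ⟨s, t, hst⟩
        exact ⟨s * a j, t, by rw [← hst]; ring⟩
    · rw [Finset.prod_insert hj]
      apply le_antisymm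
      · rw [Ideal.span_le]
        intro z hz
        simp only [Set.mem_insert_iff, Set.mem_singleton_iff] at hz
        rcases hz with rfl | rfl
        · exact Ideal.mem_sup_left (Ideal.subset_span (by simp))
        · exact Ideal.mem_sup_right (Ideal.mem_span_singleton_self _)
      · apply sup_le
        · rw [Ideal.span_le]
          intro z hz
          simp only [Set.mem_insert_iff, Set.mem_singleton_iff] at hz
          rcases hz with rfl | rfl
          · exact Ideal.subset_span (by simp)
          · exact Ideal.mul_mem_right _ _ (Ideal.subset_span (by simp))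
        · rw [Ideal.span_le]
          intro z hz
          simp only [Set.mem_singleton_iff] at hz
          rw [hz]
          exact Ideal.subset_span (by simp)

lemma StarData.WR_star [DecidableEq ι] (h : StarData a) {x y : S}
    (hP : ∀ i j, i ≠ j → WR x y (Ideal.span {a i, a j})) (T : Finset ι) (hT : T.Nonempty) :
    WR x y (starIdeal a T) := by
  induction hT using Finset.Nonempty.cons_induction with
  | singleton k =>
    have : starIdeal a {k} = ⊤ := by
      rw [Ideal.eq_top_iff_one]
      intro i hi j hj hij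
      rw [Finset.mem_singleton] at hi hj
      exact absurd (hi.trans hj.symm) hij
    rw [this]
    exact WR_top x y
  | cons k T hk hT ih =>
    rw [Finset.cons_eq_insert]
    refine WR.ext (c := a k) (I' := starIdeal a T) (I'' := Ideal.span {a k, ∏ i ∈ T, a i})
      ?_ ?_ ih (h.WR_pair_prod hP T hk)
    · intro f
      constructor
      · intro hf i hi j hj hij
        exact ((h.pair_prime i j hij).mem_or_mem (hf i (Finset.mem_insert_of_mem hi) j
          (Finset.mem_insert_of_mem hj) hij)).resolve_left
          (h.notMem i j k hij (fun e => hk (e ▸ hi)) (fun e => hk (e ▸ hj)))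
      · intro hf i hi j hj hij
        rw [Finset.mem_insert] at hi hj
        rcases hi with rfl | hi
        · exact Ideal.mul_mem_right _ _ (Ideal.subset_span (by simp))
        · rcases hj with rfl | hj
          · exact Ideal.mul_mem_right _ _ (Ideal.subset_span (by simp))
          · exact Ideal.mul_mem_left _ _ (hf i hi j hj hij)
    · apply le_antisymm
      · rw [Ideal.span_le]
        intro z hz
        simp only [Set.mem_insert_iff, Set.mem_singleton_iff] at hz
        rcases hz with rfl | rfl
        · exact Ideal.mem_sup_right (Ideal.mem_span_singleton_self _)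
        · apply Ideal.mem_sup_left
          intro i hi j hj hij
          rw [Finset.mem_insert] at hi hj
          rcases hi with rfl | hi
          · have hj' : j ∈ T := hj.resolve_left (fun e => hij e.symm)
            obtain ⟨q, hq⟩ := Finset.dvd_prod_of_mem a hj'
            rw [hq]
            exact Ideal.mul_mem_right _ _ (Ideal.subset_span (by simp))
          · obtain ⟨q, hq⟩ := Finset.dvd_prod_of_mem a hi
            rw [hq]
            exact Ideal.mul_mem_right _ _ (Ideal.subset_span (by simp))
      · apply sup_le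
        · intro f hf
          obtain ⟨c, g, hcg, -⟩ := h.insert_eq T hk f hf
          rw [hcg]
          exact Ideal.add_mem _ (Ideal.mul_mem_left _ _ (Ideal.subset_span (by simp)))
            (Ideal.mul_mem_right _ _ (Ideal.subset_span (by simp)))
        · rw [Ideal.span_le]
          intro z hz
          simp only [Set.mem_singleton_iff] at hz
          rw [hz]
          exact Ideal.subset_span (by simp)

end

end Pool.Agent.ResIdeal
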